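import Mathlib
import Pool.Agent.H472.PV.Main

set_option autoImplicit false

/-!
# Montgomery's conjecture for Dirichlet polynomials supported on the values of few polynomials

The inequality of Q1 holds, without the loss `N^ε` and for all `T ≤ N^A`, for all coefficients bounded by `1`
supported on the integers `n ≤ N` that are values, at integers, of the polynomials of a set `B`: `B` is any set of at
most `N^(1/2-μ)` integer-valued polynomials of degree at most `K` (with arbitrary coefficients, which may depend on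
`N`) which have together at most about `N^(1/2+c)` values up to `N`. For instance `B` may consist of any
`N^(1/2-1/k+c)` polynomials of degree `k ≥ 2` with integer coefficients.
-/

namespace Pool.Agent.Results.MP_71ac24_nt.PolynomialValues

open Finset

/-- `D(t) = ∑_{n ≤ N} a_n n^{it}` -/
noncomputable def D (N : ℕ) (a : ℕ → ℂ) (t : ℝ) : ℂ :=
  ∑ n ∈ Icc 1 N, a n * Complex.exp (Complex.I * (t : ℂ) * (Real.log (n : ℝ) : ℂ))

/-- `B` consists of at most `N^(1/2-μ)` integer-valued polynomials `P` with real coefficients, of degree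
`1 ≤ k_P ≤ K`, and `∑_{P ∈ B} (N / |β_P|)^(1/k_P) ≤ N^(1/2+c)` where `β_P` is the leading coefficient of `P` -/
def Few (N : ℕ) (μ c : ℝ) (K : ℕ) (B : Finset (Polynomial ℝ)) : Prop :=
  (∀ P ∈ B, 1 ≤ P.natDegree ∧ P.natDegree ≤ K ∧ ∀ d : ℤ, ∃ m : ℤ, P.eval (d : ℝ) = m) ∧
    (B.card : ℝ) ≤ (N : ℝ) ^ (1 / 2 - μ) ∧
    ∑ P ∈ B, ((N : ℝ) / |P.leadingCoeff|) ^ ((1 : ℝ) / P.natDegree) ≤ (N : ℝ) ^ (1 / 2 + c)

/-- `n` is a value of a polynomial of `B` at an integer, or an element of `E` -/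
def Supp (B : Finset (Polynomial ℝ)) (E : Finset ℕ) (n : ℕ) : Prop :=
  n ∈ E ∨ ∃ P ∈ B, ∃ d : ℤ, (n : ℝ) = P.eval (d : ℝ)

/-- Let `A > 0` (for Q1: `A = 2`), `μ > 0` and `K ≥ 1`. There are `c > 0` and `C` such that for all `N`, all
`T ≤ N^A`, all `B` with `Few N μ c K B`, all sets `E` of at most `N^(1/2)` integers, all complex `a_1, …, a_N`
supported on the integers that are values of polynomials of `B` or elements of `E`, and all `1`-separated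
`S ⊂ [0,T]`: `∑_{t ∈ S} |D(t)|² ≤ C (N + |S|) N` if `|a_n| ≤ 1` for all `n`, and
`∑_{t ∈ S} |D(t)|² ≤ C (N^(3/2-c) + |S| N^(1/2-c)) ∑ |a_n|²` if `E` is empty. -/
theorem result (A μ : ℝ) (K : ℕ) (hμ : 0 < μ) (hK : 1 ≤ K) :
    ∃ c C : ℝ, 0 < c ∧ ∀ (N : ℕ) (B : Finset (Polynomial ℝ)) (E : Finset ℕ) (T : ℝ) (a : ℕ → ℂ), 1 ≤ N →
      Few N μ c K B → (E.card : ℝ) ≤ (N : ℝ) ^ (1 / 2 : ℝ) → T ≤ (N : ℝ) ^ A →
      (∀ n ∈ Icc 1 N, a n ≠ 0 → Supp B E n) →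
      ∀ S : Finset ℝ, (∀ t ∈ S, 0 ≤ t ∧ t ≤ T) → (∀ t ∈ S, ∀ u ∈ S, t ≠ u → 1 ≤ |t - u|) →
        ((∀ n ∈ Icc 1 N, ‖a n‖ ≤ 1) → ∑ t ∈ S, ‖D N a t‖ ^ 2 ≤ C * ((N : ℝ) + S.card) * N) ∧
        (E = ∅ → ∑ t ∈ S, ‖D N a t‖ ^ 2 ≤
          C * ((N : ℝ) ^ (3 / 2 - c) + S.card * (N : ℝ) ^ (1 / 2 - c)) * ∑ n ∈ Icc 1 N, ‖a n‖ ^ 2) := by
  obtain ⟨c, C, hc0, hC0, h⟩ := Pool.Agent.H472.PV.mainE A μ K hμ hK
  refine ⟨c, C, hc0, ?_⟩
  intro N B E T a hN hB hE hT hs S hS hsep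
  exact h N B E hN hB hE T 0 S a hT hsep (fun t ht => ⟨(hS t ht).1, by linarith [(hS t ht).2]⟩) hs

end Pool.Agent.Results.MP_71ac24_nt.PolynomialValues
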